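import Pool.Agent.helper14.XG.Spec

set_option autoImplicit false

namespace Pool.Agent.XG

open Finset Pool.Agent.XT

theorem ARG : ARG_stmt := by
  intro K hK
  refine ⟨K ^ 25, one_le_pow₀ hK, ?_⟩
  intro n D hn h
  have hK0 : 0 < K := by linarith
  have hn1 : (1 : ℝ) ≤ n := by exact_mod_cast hn
  have hD0 : (0 : ℝ) ≤ D := Nat.cast_nonneg D
  have h1 : K ≤ D := by
    have e1 : K ^ 25 ≤ (D : ℝ) ^ 25 := by
      refine le_trans ?_ h
      exact le_mul_of_one_le_right (by positivity) (one_le_pow₀ hn1)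
    exact le_of_pow_le_pow_left₀ (by norm_num) hD0 e1
  have hD1 : (1 : ℝ) ≤ D := hK.trans h1
  have gen : ∀ (m b : ℕ) (x y : ℝ), m ≠ 0 → 0 ≤ y → x ^ m ≤ (K ^ 25 * (n : ℝ) ^ 8) ^ b →
      ((D : ℝ) ^ 25) ^ b ≤ y ^ m → x ≤ y := by
    intro m b x y hm hy h2 h3
    refine le_of_pow_le_pow_left₀ hm hy (h2.trans (le_trans ?_ h3))
    exact pow_le_pow_left₀ (by positivity) h b
  refine ⟨h1, ?_, ?_, ?_, ?_, ?_⟩
  · refine gen 8 1 _ _ (by norm_num) (by positivity) ?_ ?_
    · rw [pow_one, mul_pow]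
      exact mul_le_mul_of_nonneg_right (pow_le_pow_right₀ hK (by norm_num)) (by positivity)
    · rw [← pow_mul, ← pow_mul]
      exact pow_le_pow_right₀ hD1 (by norm_num)
  · refine gen 4 1 _ _ (by norm_num) (by positivity) ?_ ?_
    · rw [pow_one, mul_pow, ← pow_mul]
      exact mul_le_mul_of_nonneg_right (pow_le_pow_right₀ hK (by norm_num)) (by positivity)
    · rw [← pow_mul, ← pow_mul]
      exact pow_le_pow_right₀ hD1 (by norm_num)
  · refine gen 8 5 _ _ (by norm_num) (by positivity) ?_ ?_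
    · rw [mul_pow, mul_pow, ← pow_mul, ← pow_mul, ← pow_mul]
      exact mul_le_mul_of_nonneg_right (pow_le_pow_right₀ hK (by norm_num)) (by positivity)
    · rw [← pow_mul, ← pow_mul]
      exact pow_le_pow_right₀ hD1 (by norm_num)
  · refine gen 4 3 _ _ (by norm_num) (by positivity) ?_ ?_
    · rw [mul_pow, mul_pow, ← pow_mul, ← pow_mul, ← pow_mul]
      exact mul_le_mul_of_nonneg_right (pow_le_pow_right₀ hK (by norm_num)) (by positivity)
    · rw [← pow_mul, ← pow_mul]
      exact pow_le_pow_right₀ hD1 (by norm_num)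
  · refine le_trans ?_ h
    refine mul_le_mul_of_nonneg_right ?_ (by positivity)
    calc K = K ^ 1 := (pow_one K).symm
      _ ≤ K ^ 25 := pow_le_pow_right₀ hK (by norm_num)

end Pool.Agent.XG
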