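import Pool.Agent.helper14.XG.Spec

set_option autoImplicit false

namespace Pool.Agent.XG

open Finset Pool.Agent.XT

theorem SUM : SUM_stmt := by
  classical
  intro n D B Nr F _ hD
  let i1 : Fin n × Fin n → ℕ := fun e => if e ∈ B then 1 else 0
  have hP : ∀ x : Fin n, ∑ l, i1 (x, l) = (dP B x).card := by
    intro x
    change ∑ l, (if (x, l) ∈ B then 1 else 0) = _
    rw [← card_filter]
    rfl
  have hL : ∀ l : Fin n, ∑ y, i1 (y, l) = (dL B l).card := by
    intro l
    change ∑ y, (if (y, l) ∈ B then 1 else 0) = _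
    rw [← card_filter]
    rfl
  have h1 : ∀ l y : Fin n, nn B Nr l y ≤ ∑ x, i1 (x, l) * ∑ m, i1 (x, m) * i1 (y, m) := by
    intro l y
    unfold nn
    rw [card_eq_sum_ones, NS, sum_filter]
    refine sum_le_sum fun x _ => ?_
    split_ifs with h
    · obtain ⟨-, h2, -, -, ⟨m, hm⟩, -⟩ := h
      have hm2 : (x, m) ∈ B ∧ (y, m) ∈ B := (mem_filter.1 hm).2
      have e1 : i1 (x, l) = 1 := if_pos h2
      have e2 : i1 (x, m) * i1 (y, m) = 1 := by
        change (if (x, m) ∈ B then 1 else 0) * (if (y, m) ∈ B then 1 else 0) = 1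
        rw [if_pos hm2.1, if_pos hm2.2]
      rw [e1, one_mul, ← e2]
      exact single_le_sum (f := fun m => i1 (x, m) * i1 (y, m)) (fun _ _ => Nat.zero_le _) (mem_univ m)
    · exact Nat.zero_le _
  calc ∑ e : Fin n × Fin n, nn B Nr e.1 e.2
      ≤ ∑ e : Fin n × Fin n, ∑ x, i1 (x, e.1) * ∑ m, i1 (x, m) * i1 (e.2, m) := sum_le_sum fun e _ => h1 e.1 e.2
    _ = ∑ x, ∑ e : Fin n × Fin n, i1 (x, e.1) * ∑ m, i1 (x, m) * i1 (e.2, m) := sum_comm
    _ = ∑ x, (∑ l, i1 (x, l)) * ∑ y, ∑ m, i1 (x, m) * i1 (y, m) := by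
        refine sum_congr rfl fun x _ => ?_
        rw [Fintype.sum_prod_type, sum_mul_sum]
    _ = ∑ x, (dP B x).card * ∑ m, i1 (x, m) * (dL B m).card := by
        refine sum_congr rfl fun x _ => ?_
        rw [hP]
        congr 1
        rw [sum_comm]
        refine sum_congr rfl fun m _ => ?_
        rw [← mul_sum, hL]
    _ ≤ ∑ x : Fin n, D * (D * D) := by
        refine sum_le_sum fun x _ => Nat.mul_le_mul (hD.pu x) ?_
        calc ∑ m, i1 (x, m) * (dL B m).card ≤ ∑ m, i1 (x, m) * D :=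
              sum_le_sum fun m _ => Nat.mul_le_mul_left _ (hD.lu m)
          _ = (dP B x).card * D := by rw [← sum_mul, hP]
          _ ≤ D * D := Nat.mul_le_mul_right _ (hD.pu x)
    _ = n * D ^ 3 := by
        rw [sum_const, card_univ, Fintype.card_fin, smul_eq_mul]
        ring

end Pool.Agent.XG
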